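import Pool.Agent.Helper3.AA.Spec

set_option autoImplicit false

/-!
# Swarm AA, part CON: concavity of `arcsin (c cos t + d sin t)`
-/

namespace Pool.Agent.Helper51.AA.Conc

open Pool.Agent.Helper3.AA
open Real Set Filter Topology

theorem strict (c d a b : ℝ) (h : c ^ 2 + d ^ 2 < 1)
    (hu : ∀ t ∈ Icc a b, 0 ≤ c * cos t + d * sin t) :
    ConcaveOn ℝ (Icc a b) (fun t => arcsin (c * cos t + d * sin t)) := by
  set u : ℝ → ℝ := fun t => c * cos t + d * sin t with hudef
  set v : ℝ → ℝ := fun t => -(c * sin t) + d * cos t with hvdef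
  have huv : ∀ t, u t ^ 2 + v t ^ 2 = c ^ 2 + d ^ 2 := by
    intro t
    simp only [hudef, hvdef]
    have := sin_sq_add_cos_sq t
    linear_combination (c ^ 2 + d ^ 2) * this
  have hw : ∀ t, 0 < 1 - u t ^ 2 := by
    intro t
    have := huv t
    nlinarith [sq_nonneg (v t)]
  have hdu : ∀ t, HasDerivAt u (v t) t := by
    intro t
    have h1 := ((hasDerivAt_cos t).const_mul c).add ((hasDerivAt_sin t).const_mul d)
    refine h1.congr_deriv ?_
    simp only [hvdef]
    ring
  have hdv : ∀ t, HasDerivAt v (-u t) t := by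
    intro t
    have h1 := (((hasDerivAt_sin t).const_mul c).neg).add ((hasDerivAt_cos t).const_mul d)
    refine h1.congr_deriv ?_
    simp only [hudef]
    ring
  have hd1 : ∀ t, HasDerivAt (fun s => arcsin (u s)) ((√(1 - u t ^ 2))⁻¹ * v t) t := by
    intro t
    have h1 : u t ≠ -1 := by
      intro h2
      have := hw t
      rw [h2] at this
      norm_num at this
    have h2 : u t ≠ 1 := by
      intro h2
      have := hw t
      rw [h2] at this
      norm_num at this
    have h3 := (hasDerivAt_arcsin h1 h2).comp t (hdu t)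
    refine h3.congr_deriv ?_
    rw [one_div]
  have hderiv : deriv (fun s => arcsin (u s)) = fun t => (√(1 - u t ^ 2))⁻¹ * v t :=
    funext fun t => (hd1 t).deriv
  have hd2 : ∀ t, HasDerivAt (fun t => (√(1 - u t ^ 2))⁻¹ * v t)
      (-(u t * (1 - c ^ 2 - d ^ 2)) / (√(1 - u t ^ 2)) ^ 3) t := by
    intro t
    have hs : 0 < √(1 - u t ^ 2) := Real.sqrt_pos.2 (hw t)
    have h1 : HasDerivAt (fun t => 1 - u t ^ 2) (-(2 * u t * v t)) t := by
      have := ((hdu t).pow 2).const_sub 1
      refine this.congr_deriv ?_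
      norm_num
    have h2 := h1.sqrt (hw t).ne'
    have h3 := (h2.inv hs.ne').mul (hdv t)
    refine h3.congr_deriv ?_
    have h4 : √(1 - u t ^ 2) ^ 2 = 1 - u t ^ 2 := Real.sq_sqrt (hw t).le
    have h5 := huv t
    simp only [Pi.inv_apply]
    set r := √(1 - u t ^ 2) with hr
    field_simp
    linear_combination (u t) * h5 - (u t) * h4
  refine concaveOn_of_deriv2_nonpos' (convex_Icc a b)
    (fun t _ => (hd1 t).differentiableAt.differentiableWithinAt) ?_ ?_
  · rw [hderiv]
    exact fun t _ => (hd2 t).differentiableAt.differentiableWithinAt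
  · intro t ht
    have h1 : deriv^[2] (fun s => arcsin (u s)) t =
        -(u t * (1 - c ^ 2 - d ^ 2)) / (√(1 - u t ^ 2)) ^ 3 := by
      rw [Function.iterate_succ, Function.iterate_one, Function.comp_apply, hderiv]
      exact (hd2 t).deriv
    rw [h1]
    refine div_nonpos_of_nonpos_of_nonneg ?_ (by positivity)
    have h2 : 0 ≤ u t := hu t ht
    have h3 : 0 ≤ 1 - c ^ 2 - d ^ 2 := by linarith
    have := mul_nonneg h2 h3
    linarith

theorem main : S_CON := by
  intro c d a b h hu
  have hl : ∀ l : ℝ, 0 ≤ l → l < 1 →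
      ConcaveOn ℝ (Icc a b) (fun t => arcsin (l * c * cos t + l * d * sin t)) := by
    intro l hl0 hl1
    refine strict _ _ a b ?_ ?_
    · have h1 : (l * c) ^ 2 + (l * d) ^ 2 = l ^ 2 * (c ^ 2 + d ^ 2) := by ring
      rw [h1]
      have h2 : l ^ 2 < 1 := by nlinarith
      have h3 : 0 ≤ c ^ 2 + d ^ 2 := by positivity
      nlinarith [sq_nonneg l]
    · intro t ht
      have h1 : l * c * cos t + l * d * sin t = l * (c * cos t + d * sin t) := by ring
      rw [h1]
      exact mul_nonneg hl0 (hu t ht)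
  have hlim : ∀ t : ℝ, Tendsto (fun l : ℝ => arcsin (l * c * cos t + l * d * sin t)) (𝓝[<] 1)
      (𝓝 (arcsin (c * cos t + d * sin t))) := by
    intro t
    have h1 : Continuous (fun l : ℝ => arcsin (l * c * cos t + l * d * sin t)) := by
      refine continuous_arcsin.comp ?_
      fun_prop
    have h2 := h1.tendsto 1
    simp only [one_mul] at h2
    exact h2.mono_left nhdsWithin_le_nhds
  refine ⟨convex_Icc a b, ?_⟩
  intro x hx y hy p q hp hq hpq
  refine le_of_tendsto_of_tendsto
    (((hlim x).const_mul p).add ((hlim y).const_mul q)) (hlim (p • x + q • y)) ?_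
  have hev : ∀ᶠ l : ℝ in 𝓝[<] 1, 0 ≤ l ∧ l < 1 := by
    have h1 : ∀ᶠ l : ℝ in 𝓝[<] 1, l < 1 := eventually_mem_nhdsWithin
    have h2 : ∀ᶠ l : ℝ in 𝓝[<] 1, 0 < l :=
      nhdsWithin_le_nhds (eventually_gt_nhds (by norm_num : (0 : ℝ) < 1))
    exact (h2.and h1).mono fun l hl => ⟨hl.1.le, hl.2⟩
  refine hev.mono fun l hll => ?_
  have := (hl l hll.1 hll.2).2 hx hy hp hq hpq
  simpa only [smul_eq_mul] using this

end Pool.Agent.Helper51.AA.Conc
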